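import Pool.Agent.H43.TC.Targets2

/-!
# MP_183c3b_co: module DNS
-/

set_option autoImplicit false

namespace Pool.Agent.H90.TE

open Pool.Agent.H43.TC

/-- DNS -/
theorem dns : T_DNS := by
  intro k n t _ c hk
  have hn : (n : ℝ) ^ k ≠ 0 := pow_ne_zero _ (by exact_mod_cast NeZero.ne n)
  have hk2 : (2 * k : ℝ) ^ t ≠ 0 := by positivity
  have h1 : size c true + size c false = n ^ k := by
    have h2 : size c true + size c false = Fintype.card (Tor k n) := by
      unfold size
      rw [← Finset.card_union_of_disjoint]
      · rw [← Finset.card_univ]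
        congr 1
        ext x
        simp
      · rw [Finset.disjoint_filter]
        intro x _ h3 h4
        rw [h3] at h4
        exact absurd h4 (by decide)
    rw [h2]
    simp [ZMod.card]
  refine ⟨?_, fun b => ?_, fun b => ?_, h1⟩
  · unfold dens
    rw [← add_div, div_eq_one_iff_eq hn]
    exact_mod_cast h1
  · unfold dens
    rw [div_mul_cancel₀ _ hn]
  · unfold mono
    rw [div_mul_cancel₀ _ (mul_ne_zero hn hk2)]

end Pool.Agent.H90.TE
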