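import Pool.Agent.H43.TC.Targets2

/-!
# MP_183c3b_co: module DFS
-/

set_option autoImplicit false

namespace Pool.Agent.H90.TE

open Pool.Agent.H43.TC

/-- DFS -/
theorem dfs (hIDN : T_IDN) : T_DFS := by
  intro k n t _ c hk ht
  have h0 := hIDN (Tor k n) k e c t
  have h1 : ((∑ x, walks e c false t x : ℕ) : ℝ) + ∑ j ∈ Finset.range t, (2 * k : ℝ) ^ (t - 1 - j) *
      ∑ x, (if c x = true then (nxt e c j x : ℝ) else 0) = (2 * k : ℝ) ^ t * size c false := by
    have h2 : (((∑ x, walks e c false t x) + ∑ j ∈ Finset.range t, (2 * k) ^ (t - 1 - j) *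
      ∑ x, (if c x = true then nxt e c j x else 0) : ℕ) : ℝ) =
      (((2 * k) ^ t * (Finset.univ.filter (fun x => c x = false)).card : ℕ) : ℝ) := by
      rw [h0]
    push_cast at h2
    unfold size
    push_cast
    exact h2
  have h3 : ∑ x, (if c x = true then (walks e c true t x : ℝ) else 0) = total c true t := by
    unfold total
    push_cast
    refine Finset.sum_congr rfl fun x _ => ?_
    by_cases hx : c x = true
    · rw [if_pos hx]
    · rw [if_neg hx]
      cases t with
      | zero => simp [walks, hx]
      | succ t => simp [walks, hx]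
  have h4 : ∑ x, (if c x = true then (1 : ℝ) else 0) = size c true := by
    unfold size
    rw [Finset.sum_boole]
  have h5 : ∑ x, (if c x = true then df c t x else 0) =
      (rng k t - 1) * ((2 * k : ℝ) ^ t * ∑ x, (if c x = true then (1 : ℝ) else 0)
        - ∑ x, (if c x = true then (walks e c true t x : ℝ) else 0)) -
      ∑ j ∈ Finset.range t, (2 * k : ℝ) ^ (t - 1 - j) *
        ∑ x, (if c x = true then (nxt e c j x : ℝ) else 0) := by
    have h6 : ∑ j ∈ Finset.range t, (2 * k : ℝ) ^ (t - 1 - j) *
        ∑ x, (if c x = true then (nxt e c j x : ℝ) else 0) =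
        ∑ x, ∑ j ∈ Finset.range t, (2 * k : ℝ) ^ (t - 1 - j) *
          (if c x = true then (nxt e c j x : ℝ) else 0) := by
      rw [Finset.sum_comm]
      refine Finset.sum_congr rfl fun j _ => ?_
      rw [Finset.mul_sum]
    rw [h6, Finset.mul_sum, ← Finset.sum_sub_distrib, Finset.mul_sum, ← Finset.sum_sub_distrib]
    refine Finset.sum_congr rfl fun x _ => ?_
    by_cases hx : c x = true
    · simp only [if_pos hx, df]
      ring
    · simp only [if_neg hx]
      simp
  rw [h5, h3, h4]
  have h7 : (total c false t : ℝ) = ((∑ x, walks e c false t x : ℕ) : ℝ) := rfl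
  rw [h7]
  linarith

end Pool.Agent.H90.TE
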