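import Pool.Agent.H43.TC.Targets2

/-!
# MP_183c3b_co: module HBD
-/

set_option autoImplicit false

namespace Pool.Agent.H90.TE

open Pool.Agent.H43.TC

lemma walks_le {G : Type} [AddCommGroup G] {k : ℕ} (s : Fin k → G) (c : G → Bool) (b : Bool) (t : ℕ) :
    ∀ x, walks s c b t x ≤ (2 * k) ^ t := by
  induction t with
  | zero => intro x; simp only [walks]; split_ifs <;> simp
  | succ t ih =>
    intro x
    simp only [walks]
    split_ifs with h
    · calc ∑ i : Fin k, (walks s c b t (x + s i) + walks s c b t (x - s i))
          ≤ ∑ _i : Fin k, ((2 * k) ^ t + (2 * k) ^ t) :=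
            Finset.sum_le_sum fun i _ => add_le_add (ih _) (ih _)
        _ = (2 * k) ^ (t + 1) := by simp; ring
    · simp

lemma walks_zero {G : Type} [AddCommGroup G] {k : ℕ} (s : Fin k → G) (c : G → Bool) (b : Bool) (t : ℕ)
    (x : G) (h : c x ≠ b) : walks s c b t x = 0 := by
  cases t with
  | zero => simp [walks, h]
  | succ t => simp [walks, h]

/-- HBD -/
theorem hbd : T_HBD := by
  intro G _ k s c t x
  have key : ∀ y, walks s c true t y + (2 * k) ^ t * (if c y = false then 1 else 0) ≤ (2 * k) ^ t := by
    intro y
    by_cases h : c y = false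
    · rw [walks_zero s c true t y (by rw [h]; decide), if_pos h]
      simp
    · rw [if_neg h]
      simpa using walks_le s c true t y
  have h1 : ∑ i : Fin k, (walks s c true t (x + s i) + walks s c true t (x - s i)) +
      (2 * k) ^ t * blu s c x ≤ (2 * k) ^ (t + 1) := by
    unfold blu
    rw [Finset.mul_sum, ← Finset.sum_add_distrib]
    calc ∑ i : Fin k, ((walks s c true t (x + s i) + walks s c true t (x - s i)) +
          (2 * k) ^ t * ((if c (x + s i) = false then 1 else 0) + (if c (x - s i) = false then 1 else 0)))
        ≤ ∑ _i : Fin k, ((2 * k) ^ t + (2 * k) ^ t) := by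
          refine Finset.sum_le_sum fun i _ => ?_
          have h2 := key (x + s i)
          have h3 := key (x - s i)
          rw [mul_add]
          omega
      _ = (2 * k) ^ (t + 1) := by simp; ring
  refine le_trans (Nat.add_le_add_right ?_ _) h1
  simp only [walks]
  split_ifs
  · exact le_rfl
  · exact Nat.zero_le _

end Pool.Agent.H90.TE
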