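import Pool.Agent.H43.TC.Targets2

/-!
# MP_183c3b_co: module MNW
-/

set_option autoImplicit false

namespace Pool.Agent.H90.TE

open Pool.Agent.H43.TC

lemma walks_mono {k : ℕ} (c : (Fin k → ℤ) → Bool) (h0 : c 0 = true) :
    ∀ j v, walks un c false j v ≤ walks un (off k) true j v := by
  intro j
  induction j with
  | zero =>
    intro v
    simp only [walks]
    by_cases h : c v = false
    · have h1 : v ≠ 0 := by rintro rfl; rw [h0] at h; exact absurd h (by decide)
      rw [if_pos h, if_pos (by simp [off, h1])]
    · rw [if_neg h]; exact Nat.zero_le _
  | succ j ih =>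
    intro v
    simp only [walks]
    by_cases h : c v = false
    · have h1 : v ≠ 0 := by rintro rfl; rw [h0] at h; exact absurd h (by decide)
      rw [if_pos h, if_pos (by simp [off, h1])]
      exact Finset.sum_le_sum fun i _ => add_le_add (ih _) (ih _)
    · rw [if_neg h]; exact Nat.zero_le _

lemma walks_off_pos {k : ℕ} : ∀ (j : ℕ) (v : Fin k → ℤ), v ≠ 0 → 1 ≤ walks un (off k) true j v := by
  intro j
  induction j with
  | zero =>
    intro v hv
    simp only [walks]
    rw [if_pos (by simp [off, hv])]
  | succ j ih =>
    intro v hv
    simp only [walks]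
    rw [if_pos (by simp [off, hv])]
    obtain ⟨i, hi⟩ : ∃ i, v i ≠ 0 := by
      by_contra hcon
      push Not at hcon
      exact hv (funext hcon)
    have h1 : 1 ≤ walks un (off k) true j (v + un i) + walks un (off k) true j (v - un i) := by
      rcases lt_or_gt_of_ne hi with h | h
      · refine le_trans (ih (v - un i) ?_) (Nat.le_add_left _ _)
        intro h2
        have h3 := congrFun h2 i
        simp [un] at h3
        omega
      · refine le_trans (ih (v + un i) ?_) (Nat.le_add_right _ _)
        intro h2
        have h3 := congrFun h2 i
        simp [un] at h3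
        omega
    exact le_trans h1 (Finset.single_le_sum (f := fun i => walks un (off k) true j (v + un i) +
      walks un (off k) true j (v - un i)) (fun _ _ => Nat.zero_le _) (Finset.mem_univ i))

/-- MNW -/
theorem mnw : T_MNW := by
  intro k c _ h0
  have h1 := walks_mono c h0
  have h2 : ∀ j v, v ≠ 0 → walks un c false j v = walks un (off k) true j v → c v = false := by
    intro j v hv h
    by_contra hc
    have h3 := walks_off_pos j v hv
    rw [← h] at h3
    have h4 : walks un c false j v = 0 := by
      cases j with
      | zero => simp [walks, hc]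
      | succ j => simp only [walks]; rw [if_neg hc]
    omega
  refine ⟨h1, h2, ?_⟩
  intro j v hv h i
  have hc := h2 (j + 1) v hv h
  simp only [walks] at h
  rw [if_pos hc, if_pos (by simp [off, hv])] at h
  have h5 := (Finset.sum_eq_sum_iff_of_le (fun i _ => add_le_add (h1 j (v + un i)) (h1 j (v - un i)))).1 h
    i (Finset.mem_univ i)
  have h6 := h1 j (v + un i)
  have h7 := h1 j (v - un i)
  constructor <;> omega

end Pool.Agent.H90.TE
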