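import Pool.Agent.H43.TC.Targets2
import Pool.Agent.H20.TC.HOM

/-!
# MP_183c3b_co: module NXB
-/

set_option autoImplicit false

namespace Pool.Agent.H90.TE

open Pool.Agent.H43.TC

lemma walks_trans {G : Type} [AddCommGroup G] {k : ℕ} (s : Fin k → G) (c : G → Bool) (b : Bool)
    (x : G) : ∀ (t : ℕ) (y : G), walks s c b t (x + y) = walks s (fun z => c (x + z)) b t y := by
  intro t
  induction t with
  | zero => intro y; rfl
  | succ t ih =>
    intro y
    simp only [walks]
    by_cases h : c (x + y) = b
    · rw [if_pos h, if_pos h]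
      refine Finset.sum_congr rfl fun i _ => ?_
      rw [← ih, ← ih, add_assoc, add_sub_assoc]
    · rw [if_neg h, if_neg h]

/-- NXB -/
theorem nxb (hSYA : T_SYA) (hMNW : T_MNW) : T_NXB := by
  intro k n c x hk hx j
  have hpr : ∀ i : Fin k, (pr (un i) : Tor k n) = e i := by
    intro i
    funext l
    simp only [pr, un, e, AddMonoidHom.coe_mk, ZeroHom.coe_mk, Pi.single_apply]
    split_ifs <;> simp
  have h0 : (fun z : Fin k → ℤ => c (x + pr z)) 0 = true := by
    simp only [map_zero, add_zero]
    exact hx
  have h1 := (hMNW k (fun z => c (x + pr z)) hk h0).1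
  have h2 : ∀ v : Fin k → ℤ, walks e c false j (x + pr v) ≤ walks un (off k) true j v := by
    intro v
    have h3 := Pool.Agent.H20.TC.hom (Fin k → ℤ) (Tor k n) k un pr (fun y => c (x + y)) false j v
    have h4 : (fun i : Fin k => (pr (un i) : Tor k n)) = e := funext hpr
    rw [h4] at h3
    rw [walks_trans, ← h3]
    exact h1 j v
  have h5 : ∀ (y : Tor k n) (v : Fin k → ℤ), y = x + pr v →
      2 * k * walks un (off k) true j v = avoid k (j + 1) →
      2 * k * walks e c false j y ≤ (if c y = false then 1 else 0) * avoid k (j + 1) := by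
    intro y v hy hv
    by_cases h : c y = false
    · rw [if_pos h, one_mul, ← hv, hy]
      exact Nat.mul_le_mul_left _ (h2 v)
    · rw [if_neg h, zero_mul]
      have h6 : walks e c false j y = 0 := by
        cases j with
        | zero => simp [walks, h]
        | succ j => simp only [walks]; rw [if_neg h]
      rw [h6, mul_zero]
  unfold nxt blu
  rw [Finset.mul_sum, Finset.sum_mul]
  refine Finset.sum_le_sum fun i _ => ?_
  rw [mul_add, add_mul]
  refine add_le_add (h5 _ (un i) (by rw [hpr]) (hSYA k j i).1) (h5 _ (-un i) ?_ (hSYA k j i).2)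
  rw [map_neg, hpr, sub_eq_add_neg]

end Pool.Agent.H90.TE
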